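import Pool.Agent.U737.CF.Null
import Pool.Agent.TH541.GQ.Count

/-!
# Numbers of flags of consecutive dimensions
-/

set_option autoImplicit false

namespace Pool.Agent.U737.CF

open Module (finrank)

variable {F V : Type} [Field F] [AddCommGroup V] [Module F V] [FiniteDimensional F V] [Finite F]

/-- The number of the flags opposite to a given chain. -/
theorem card_opp {i : ℕ} {K H : Submodule F V} (hch : IsCh i K H) :
    Nat.card F ^ (i * (finrank F V - i) + (finrank F V - i - 1)) ≤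
      Nat.card {c : Submodule F V × Submodule F V // IsFl i c ∧ GP K H c.1 c.2} := by
  have hVf : Finite V := Module.finite_of_finite F
  have hSub : Finite (Submodule F V) :=
    Finite.of_injective (fun W : Submodule F V => (W : Set V)) SetLike.coe_injective
  obtain ⟨hK, hH, hle⟩ := hch
  obtain ⟨q₀, hq₀⟩ : ∃ q₀ : Submodule F H, q₀ = K.comap H.subtype := ⟨_, rfl⟩
  have hq1 : finrank F q₀ = finrank F K := by
    rw [hq₀]
    exact (Submodule.comapSubtypeEquivOfLe hle).finrank_eq
  have h1 := Pool.Agent.TH431.GQ.card_compl H i hH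
  have h2 := Pool.Agent.TH431.GQ.card_compl q₀ 1 (by omega)
  have h3 : Nat.card F ^ (i * (finrank F V - i) + (finrank F V - i - 1)) =
      Nat.card F ^ (i * (finrank F V - i)) * Nat.card F ^ (1 * (finrank F H - 1)) := by
    rw [← pow_add]
    congr 2
    omega
  rw [h3]
  refine (Nat.mul_le_mul h1 h2).trans ?_
  rw [← Nat.card_prod]
  have hC : ∀ C : Submodule F H, (C.map H.subtype) ≤ H := fun C => Submodule.map_subtype_le H C
  have hmod : ∀ (a : {W : Submodule F V // IsCompl H W}) (C : Submodule F H),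
      (a.1 ⊔ C.map H.subtype) ⊓ H = C.map H.subtype := by
    intro a C
    rw [sup_comm, sup_inf_assoc_of_le _ (hC C), inf_comm, a.2.inf_eq_bot, sup_bot_eq]
  refine Nat.card_le_card_of_injective
    (fun a : {W : Submodule F V // IsCompl H W} × {C : Submodule F H // IsCompl q₀ C} =>
      (⟨(a.1.1, a.1.1 ⊔ a.2.1.map H.subtype), ?_, ?_⟩ :
        {c : Submodule F V × Submodule F V // IsFl i c ∧ GP K H c.1 c.2})) ?_
  · obtain ⟨⟨W, hW⟩, ⟨C, hC'⟩⟩ := a
    have h5 := Submodule.finrank_add_eq_of_isCompl hW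
    have h6 := Submodule.finrank_add_eq_of_isCompl hC'
    have h7 : finrank F (C.map H.subtype) = finrank F C := Submodule.finrank_map_subtype_eq H C
    have h8 := Submodule.finrank_sup_add_finrank_inf_eq W (C.map H.subtype)
    have h9 : W ⊓ C.map H.subtype = ⊥ := by
      rw [eq_bot_iff, ← hW.symm.inf_eq_bot]
      exact inf_le_inf_left _ (hC C)
    rw [h9, finrank_bot] at h8
    refine ⟨?_, ?_, le_sup_left⟩
    · show finrank F W = i
      omega
    · show finrank F (W ⊔ C.map H.subtype : Submodule F V) = i + 1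
      omega
  · obtain ⟨⟨W, hW⟩, ⟨C, hC'⟩⟩ := a
    refine ⟨?_, hW.symm.sup_eq_top⟩
    show (W ⊔ C.map H.subtype) ⊓ K = ⊥
    rw [eq_bot_iff]
    intro v hv
    have h5 : v ∈ C.map H.subtype := by
      rw [← hmod ⟨W, hW⟩ C]
      exact ⟨hv.1, hle hv.2⟩
    obtain ⟨w, hw, hwv⟩ := h5
    have h6 : w ∈ q₀ ⊓ C := by
      refine ⟨?_, hw⟩
      rw [hq₀]
      show H.subtype w ∈ K
      rw [hwv]
      exact hv.2
    rw [hC'.inf_eq_bot, Submodule.mem_bot] at h6
    rw [Submodule.mem_bot, ← hwv, h6, map_zero]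
  · rintro ⟨⟨W, hW⟩, ⟨C, hC'⟩⟩ ⟨⟨W', hW'⟩, ⟨C', hC''⟩⟩ h
    have h4 := congrArg Subtype.val h
    have h5 : W = W' := congrArg Prod.fst h4
    have h6 : W ⊔ C.map H.subtype = W' ⊔ C'.map H.subtype := congrArg Prod.snd h4
    subst h5
    have h7 : C.map H.subtype = C'.map H.subtype := by
      rw [← hmod ⟨W, hW⟩ C, ← hmod ⟨W, hW⟩ C']
      show (W ⊔ C.map H.subtype) ⊓ H = (W ⊔ C'.map H.subtype) ⊓ H
      rw [h6]
    have h8 : C = C' := Submodule.map_injective_of_injective H.subtype_injective h7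
    subst h8
    rfl

/-- The number of all flags. -/
theorem card_flags (i : ℕ) :
    (Nat.card F ^ (i + 1) - Nat.card F ^ i) *
        Nat.card {c : Submodule F V × Submodule F V // IsFl i c} ≤
      Nat.card {W : Submodule F V // finrank F W = i} * Nat.card F ^ finrank F V := by
  classical
  have hVf : Finite V := Module.finite_of_finite F
  have hSub : Finite (Submodule F V) :=
    Finite.of_injective (fun W : Submodule F V => (W : Set V)) SetLike.coe_injective
  have hfin : Fintype {c : Submodule F V × Submodule F V // IsFl i c} := Fintype.ofFinite _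
  have hdiff : ∀ c : {c : Submodule F V × Submodule F V // IsFl i c},
      Nat.card {v : V // v ∈ c.1.2 ∧ v ∉ c.1.1} = Nat.card F ^ (i + 1) - Nat.card F ^ i := by
    rintro ⟨⟨A, B⟩, h1, h2, h3⟩
    simp only at h1 h2 h3
    have e1 : Nat.card B = Nat.card F ^ (i + 1) := by
      rw [Module.natCard_eq_pow_finrank (K := F), h2]
    have e2 : Nat.card A = Nat.card F ^ i := by
      rw [Module.natCard_eq_pow_finrank (K := F), h1]
    have e3 : ((B : Set V) \ (A : Set V)).ncard = (B : Set V).ncard - (A : Set V).ncard :=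
      Set.ncard_sdiff h3 (Set.toFinite _)
    have e4 : (B : Set V).ncard = Nat.card B := rfl
    have e5 : (A : Set V).ncard = Nat.card A := rfl
    rw [← e1, ← e2, ← e4, ← e5, ← e3]
    rfl
  have hle : Nat.card (Σ c : {c : Submodule F V × Submodule F V // IsFl i c},
      {v : V // v ∈ c.1.2 ∧ v ∉ c.1.1}) ≤
      Nat.card ({W : Submodule F V // finrank F W = i} × V) := by
    refine Nat.card_le_card_of_injective (fun a => (⟨a.1.1.1, a.1.2.1⟩, a.2.1)) ?_
    rintro ⟨⟨⟨A, B⟩, h1, h2, h3⟩, v, hv, hvA⟩ ⟨⟨⟨A', B'⟩, h1', h2', h3'⟩, v', hv', hvA'⟩ h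
    simp only at h1 h2 h3 hv hvA h1' h2' h3' hv' hvA'
    have e1 : A = A' := congrArg (fun z : {W : Submodule F V // finrank F W = i} × V => z.1.1) h
    have e2 : v = v' := congrArg (fun z : {W : Submodule F V // finrank F W = i} × V => z.2) h
    subst e1 e2
    have e3 : B = B' := by
      rw [← sup_span h3 (by omega) hv hvA, ← sup_span h3' (by omega) hv' hvA]
    subst e3
    rfl
  rw [Nat.card_sigma, Finset.sum_congr rfl fun c _ => hdiff c, Finset.sum_const,
    Finset.card_univ, smul_eq_mul, ← Nat.card_eq_fintype_card, Nat.card_prod] at hle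
  rw [mul_comm, ← Module.natCard_eq_pow_finrank (K := F) (V := V)]
  exact hle

theorem ratio {i : ℕ} (hi : i < finrank F V) {d : ℕ}
    (hd : Nat.card F ^ (i * (finrank F V - i) + (finrank F V - i - 1)) ≤ d) :
    (1 - 1 / (Nat.card F : ℝ)) * (1 - 1 / (Nat.card F : ℝ) - 1 / (Nat.card F : ℝ) ^ 2) *
      Nat.card {c : Submodule F V × Submodule F V // IsFl i c} ≤ d := by
  have hq : 1 ≤ Nat.card F := Nat.card_pos
  have hq2 : 2 ≤ Nat.card F := by
    have := Finite.one_lt_card (α := F)
    omega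
  have h1 := card_flags (F := F) (V := V) i
  have h2 := Pool.Agent.TH541.GQ.card_gr F V i hi.le
  obtain ⟨q, hqd⟩ : ∃ q : ℝ, q = (Nat.card F : ℝ) := ⟨_, rfl⟩
  obtain ⟨N, hN⟩ : ∃ N : ℝ,
    N = (Nat.card {c : Submodule F V × Submodule F V // IsFl i c} : ℝ) := ⟨_, rfl⟩
  obtain ⟨M, hM⟩ : ∃ M : ℝ,
    M = (Nat.card {W : Submodule F V // finrank F W = i} : ℝ) := ⟨_, rfl⟩
  have hpow : Nat.card F ^ i ≤ Nat.card F ^ (i + 1) := Nat.pow_le_pow_right hq (by omega)
  have h3 : (q ^ (i + 1) - q ^ i) * N ≤ M * q ^ finrank F V := by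
    have h3 : (((Nat.card F ^ (i + 1) - Nat.card F ^ i) *
        Nat.card {c : Submodule F V × Submodule F V // IsFl i c} : ℕ) : ℝ) ≤
        ((Nat.card {W : Submodule F V // finrank F W = i} * Nat.card F ^ finrank F V : ℕ) : ℝ) := by
      exact_mod_cast h1
    push_cast [Nat.cast_sub hpow] at h3
    rw [hqd, hN, hM]
    exact h3
  rw [← hqd, ← hM] at h2
  rw [← hqd, ← hN]
  have hq0 : (2 : ℝ) ≤ q := by
    rw [hqd]
    exact_mod_cast hq2
  have hqpos : 0 < q := by linarith
  have hc : 0 ≤ 1 - 1 / q - 1 / q ^ 2 := by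
    have e1 : 1 / q ≤ 1 / 2 := one_div_le_one_div_of_le (by norm_num) hq0
    have e2 : 1 / q ^ 2 ≤ 1 / 4 := one_div_le_one_div_of_le (by norm_num) (by nlinarith)
    linarith
  have h4 : (q : ℝ) ^ (i * (finrank F V - i) + (finrank F V - i - 1)) ≤ d := by
    rw [hqd]
    exact_mod_cast hd
  refine le_trans ?_ h4
  have h5 : (q ^ (i + 1) - q ^ i) = (1 - 1 / q) * q ^ (i + 1) := by
    rw [pow_succ]
    field_simp
  have h6 : ((1 - 1 / q) * (1 - 1 / q - 1 / q ^ 2) * N) * q ^ (i + 1) ≤
      q ^ (i * (finrank F V - i) + (finrank F V - i - 1)) * q ^ (i + 1) := by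
    calc ((1 - 1 / q) * (1 - 1 / q - 1 / q ^ 2) * N) * q ^ (i + 1)
        = (1 - 1 / q - 1 / q ^ 2) * ((q ^ (i + 1) - q ^ i) * N) := by rw [h5]; ring
      _ ≤ (1 - 1 / q - 1 / q ^ 2) * (M * q ^ finrank F V) := mul_le_mul_of_nonneg_left h3 hc
      _ = ((1 - 1 / q - 1 / q ^ 2) * M) * q ^ finrank F V := by ring
      _ ≤ q ^ (i * (finrank F V - i)) * q ^ finrank F V :=
        mul_le_mul_of_nonneg_right h2 (by positivity)
      _ = q ^ (i * (finrank F V - i) + (finrank F V - i - 1)) * q ^ (i + 1) := by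
        rw [← pow_add, ← pow_add]
        congr 1
        omega
  exact le_of_mul_le_mul_right h6 (by positivity)

end Pool.Agent.U737.CF
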