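import Pool.Agent.U737.CF.Main
import Pool.Agent.U737.CF.Count

/-!
# Flags of consecutive dimensions: the bound
-/

set_option autoImplicit false

namespace Pool.Agent.U737.CF

open Finset
open Module (finrank)
open scoped Pointwise
open Pool.Agent.R570.PS

variable {F V : Type} [Field F] [AddCommGroup V] [Module F V] [FiniteDimensional F V] [Finite F]

theorem final {T R : Submodule F V} (hTR : T ≤ R) (i : ℕ) {X : Type} [Finite X] [DecidableEq X]
    [MulAction (Stab T R) X] (π : X → Submodule F V × Submodule F V) (hflag : ∀ x, IsFl i (π x))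
    (hgen : ∀ x, GP T R (π x).1 (π x).2)
    (hequi : ∀ (g : Stab T R) x,
      π (g • x) = ((π x).1.map (g.1 : V →ₗ[F] V), (π x).2.map (g.1 : V →ₗ[F] V)))
    (f : (X → Bool) → Bool) (hmono : Monotone f) (hne : ∃ x y, f x ≠ f y)
    (hinv : ∀ (g : Stab T R) (x : X → Bool), f (fun v => x (g • v)) = f x)
    (d : ℕ) (hd : DepthLe d f) :
    i < finrank F V ∧ Nat.card F ^ (i * (finrank F V - i) + (finrank F V - i - 1)) ≤ d := by
  classical
  have hX : Fintype X := Fintype.ofFinite X
  obtain ⟨x₀, y₀, hxy⟩ := hne
  have hXne : Nonempty X := by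
    by_contra hem
    rw [not_nonempty_iff] at hem
    exact hxy (congrArg f (Subsingleton.elim _ _))
  have hi : i < finrank F V := by
    obtain ⟨x⟩ := hXne
    have h1 := (hflag x).2.1
    have h2 := Submodule.finrank_le (π x).2
    omega
  refine ⟨hi, ?_⟩
  by_contra hlt
  push Not at hlt
  have hF : Fintype F := Fintype.ofFinite F
  obtain ⟨p, hpc⟩ := CharP.exists F
  have hpp : Fact p.Prime := ⟨CharP.char_is_prime F p⟩
  have hle : ∀ x : X → Bool, f (ind (∅ : Finset X)) ≤ f x :=
    fun x => hmono (fun v => by simp [ind])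
  have hge : ∀ x : X → Bool, f x ≤ f (ind univ) :=
    fun x => hmono (fun v => by simp only [ind, mem_univ, decide_true]; exact Bool.le_true _)
  have D : Data i T R X π f d := by
    refine ⟨hmono, hd, ?_, hflag, hgen, hequi, fun K H hch => lt_of_lt_of_le hlt (card_opp hch)⟩
    intro g S
    rw [← hinv g (ind (g • S))]
    congr 1
    funext v
    unfold ind
    exact decide_eq_decide.2 (Finset.smul_mem_smul_finset_iff g)
  rcases Bool.eq_false_or_eq_true (f (ind (∅ : Finset X))) with h0 | h0
  · apply hxy
    have h1 := hle x₀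
    have h2 := hle y₀
    rw [h0] at h1 h2
    rw [top_le_iff.1 h1, top_le_iff.1 h2]
  · have hfin := const p D hTR h0
    apply hxy
    have h1 := hge x₀
    have h2 := hge y₀
    rw [hfin] at h1 h2
    rw [le_bot_iff.1 h1, le_bot_iff.1 h2]

end Pool.Agent.U737.CF
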