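import Pool.Agent.U737.FL.Lin
import Pool.Agent.TH431.GQ.Lin

/-!
# The unipotent group of a chain `K ≤ H` and the opposite flags
-/

set_option autoImplicit false

namespace Pool.Agent.U737.CF

open Module (finrank)
open Pool.Agent.U737.FL (Uni mem_uni exists_func)

variable {F V : Type} [Field F] [AddCommGroup V] [Module F V] [FiniteDimensional F V]

theorem sup_span {P Q : Submodule F V} (h : P ≤ Q) (hd : finrank F P + 1 = finrank F Q) {x : V}
    (hx : x ∈ Q) (hxP : x ∉ P) : P ⊔ (F ∙ x) = Q := by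
  have h1 : P < P ⊔ (F ∙ x) := by
    refine lt_of_le_of_ne le_sup_left fun h2 => hxP ?_
    rw [h2]
    exact Submodule.mem_sup_right (Submodule.mem_span_singleton_self x)
  have h2 := Submodule.finrank_lt_finrank_of_lt h1
  have h3 : P ⊔ (F ∙ x) ≤ Q := sup_le h ((Submodule.span_singleton_le_iff_mem _ _).2 hx)
  apply Submodule.eq_of_le_of_finrank_le h3
  omega

theorem finrank_sup_span {P : Submodule F V} {x : V} (hxP : x ∉ P) :
    finrank F (P ⊔ (F ∙ x) : Submodule F V) = finrank F P + 1 := by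
  have hx0 : x ≠ 0 := by
    rintro rfl
    exact hxP P.zero_mem
  have h1 := Submodule.finrank_sup_add_finrank_inf_eq P (F ∙ x)
  have h2 : P ⊓ (F ∙ x) = ⊥ := by
    rw [eq_bot_iff]
    rintro v ⟨hv1, hv2⟩
    obtain ⟨a, rfl⟩ := Submodule.mem_span_singleton.1 hv2
    by_cases ha : a = 0
    · rw [ha, zero_smul]
      exact Submodule.zero_mem _
    · exfalso
      apply hxP
      have := P.smul_mem a⁻¹ hv1
      rwa [smul_smul, inv_mul_cancel₀ ha, one_smul] at this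
  rw [h2, finrank_bot, finrank_span_singleton hx0] at h1
  omega

/-- `A < B` are the spaces of a flag of dimensions `i`, `i + 1`. -/
def IsFl (i : ℕ) (c : Submodule F V × Submodule F V) : Prop :=
  finrank F c.1 = i ∧ finrank F c.2 = i + 1 ∧ c.1 ≤ c.2

/-- The flag `(A, B)` is in general position to `T` and `R`. -/
def GP (T R A B : Submodule F V) : Prop := B ⊓ T = ⊥ ∧ A ⊔ R = ⊤

/-- The unipotent group is transitive on the opposite flags. -/
theorem opp_trans {i : ℕ} {K H A B A' B' : Submodule F V} (hK : finrank F K + i + 1 = finrank F V)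
    (hH : finrank F H + i = finrank F V) (hKH : K ≤ H) (hA : IsFl i (A, B)) (hA' : IsFl i (A', B'))
    (ho : GP K H A B) (ho' : GP K H A' B') :
    ∃ g ∈ Uni K H, A.map (g : V →ₗ[F] V) = A' ∧ B.map (g : V →ₗ[F] V) = B' := by
  obtain ⟨a1, a2, a3⟩ := hA
  obtain ⟨b1, b2, b3⟩ := hA'
  simp only at a1 a2 a3 b1 b2 b3
  have hinf : ∀ C : Submodule F V, finrank F C = i → C ⊔ H = ⊤ → C ⊓ H = ⊥ := by
    intro C hC hCH
    have h1 := Submodule.finrank_sup_add_finrank_inf_eq C H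
    rw [hCH, finrank_top] at h1
    apply Submodule.finrank_eq_zero.1
    omega
  have e1 := hinf A a1 ho.2
  have e2 := hinf A' b1 ho'.2
  obtain ⟨g, hg, hgA⟩ := Pool.Agent.TH431.GQ.trans_ab ho.2 ho'.2 (e1.trans e2.symm)
    (a1.trans b1.symm)
  obtain ⟨B₁, hB₁⟩ : ∃ B₁, B₁ = B.map (g : V →ₗ[F] V) := ⟨_, rfl⟩
  have hB1d : finrank F B₁ = i + 1 := by
    rw [hB₁, ← a2]
    exact LinearEquiv.finrank_map_eq g B
  have hAB1 : A' ≤ B₁ := by
    rw [hB₁, ← hgA]
    exact Submodule.map_mono a3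
  have hB1K : ∀ v ∈ B₁, v ∈ K → v = 0 := by
    intro v hv hvK
    rw [hB₁] at hv
    obtain ⟨w, hw, rfl⟩ := hv
    have h1 : g (g w) = g w := hg.2 _ (hKH hvK)
    have h2 : g w = w := g.injective h1
    have h3 : (g w : V) ∈ K := hvK
    rw [h2] at h3
    have h4 : w ∈ B ⊓ K := ⟨hw, h3⟩
    rw [ho.1, Submodule.mem_bot] at h4
    show g w = 0
    rw [h2, h4]
  have hpt : ∀ C D : Submodule F V, C ≤ D → finrank F D = i + 1 → C ⊔ H = ⊤ →
      ∃ x ∈ D, x ∈ H ∧ x ≠ 0 := by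
    intro C D hCD hD hCH
    have h1 := Submodule.finrank_sup_add_finrank_inf_eq D H
    have h2 : D ⊔ H = ⊤ := by
      rw [eq_top_iff, ← hCH]
      exact sup_le_sup_right hCD H
    rw [h2, finrank_top] at h1
    have h3 : D ⊓ H ≠ ⊥ := by
      intro h4
      rw [h4, finrank_bot] at h1
      omega
    obtain ⟨x, hx, hx0⟩ := Submodule.exists_mem_ne_zero_of_ne_bot h3
    exact ⟨x, hx.1, hx.2, hx0⟩
  obtain ⟨x, hx, hxH, hx0⟩ := hpt A' B₁ hAB1 hB1d ho'.2
  obtain ⟨y, hy, hyH, hy0⟩ := hpt A' B' b3 b2 ho'.2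
  have hxK : x ∉ K := fun h => hx0 (hB1K x hx h)
  have hyK : y ∉ K := fun h => hy0 (by
    have h4 : y ∈ B' ⊓ K := ⟨hy, h⟩
    rwa [ho'.1, Submodule.mem_bot] at h4)
  have hHx : K ⊔ (F ∙ x) = H := sup_span hKH (by omega) hxH hxK
  obtain ⟨k, hk, z, hz, hkz⟩ := Submodule.mem_sup.1 (hHx ▸ hyH : y ∈ K ⊔ (F ∙ x))
  obtain ⟨c, rfl⟩ := Submodule.mem_span_singleton.1 hz
  have hc : c ≠ 0 := by
    rintro rfl
    rw [zero_smul, add_zero] at hkz
    exact hyK (hkz ▸ hk)
  obtain ⟨x', hx'⟩ : ∃ x', x' = c⁻¹ • y := ⟨_, rfl⟩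
  have hx'x : x' - x = c⁻¹ • k := by
    rw [hx', ← hkz, smul_add, smul_smul, inv_mul_cancel₀ hc, one_smul]
    abel
  have hx'B : x' ∈ B' := hx' ▸ B'.smul_mem _ hy
  have hdK : x' - x ∈ K := by
    rw [hx'x]
    exact K.smul_mem _ hk
  have hAK : A' ⊓ K = ⊥ := by
    rw [eq_bot_iff, ← e2]
    exact inf_le_inf_left _ hKH
  have hAKd : finrank F (A' ⊔ K : Submodule F V) + 1 = finrank F V := by
    have h1 := Submodule.finrank_sup_add_finrank_inf_eq A' K
    rw [hAK, finrank_bot] at h1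
    omega
  have hxAK : x ∉ A' ⊔ K := by
    intro h
    obtain ⟨a, ha, k', hk', hak⟩ := Submodule.mem_sup.1 h
    have h1 : a ∈ A' ⊓ H := by
      refine ⟨ha, ?_⟩
      have : a = x - k' := by rw [← hak]; abel
      rw [this]
      exact H.sub_mem hxH (hKH hk')
    rw [e2, Submodule.mem_bot] at h1
    rw [h1, zero_add] at hak
    exact hxK (hak ▸ hk')
  obtain ⟨ℓ, hℓ, hℓx⟩ := exists_func hAKd hxAK
  have hℓA : ∀ v ∈ A', ℓ v = 0 := fun v hv => by
    have : v ∈ LinearMap.ker ℓ := hℓ ▸ Submodule.mem_sup_left hv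
    exact this
  have hℓK : ∀ v ∈ K, ℓ v = 0 := fun v hv => by
    have : v ∈ LinearMap.ker ℓ := hℓ ▸ Submodule.mem_sup_right hv
    exact this
  obtain ⟨u, hu⟩ : ∃ u : V ≃ₗ[F] V, ∀ v, u v = v + ℓ v • (x' - x) :=
    ⟨Pool.Agent.TH431.GQ.oneAdd (ℓ.smulRight (x' - x)) (fun w => by
      simp only [LinearMap.smulRight_apply]
      rw [map_smul, hℓK _ hdK, smul_zero, zero_smul]), fun v => rfl⟩
  have huA : ∀ v ∈ A', u v = v := fun v hv => by rw [hu, hℓA v hv, zero_smul, add_zero]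
  have hux : u x = x' := by rw [hu, hℓx, one_smul]; abel
  have huU : u ∈ Uni K H := by
    refine ⟨fun v => ?_, fun v _ => ?_, fun v hv => ?_⟩
    · rw [hu, add_sub_cancel_left]
      exact hKH (K.smul_mem _ hdK)
    · rw [hu, add_sub_cancel_left]
      exact K.smul_mem _ hdK
    · rw [hu, hℓK v hv, zero_smul, add_zero]
  have hgU : g ∈ Uni K H := by
    refine ⟨hg.1, fun v hv => ?_, fun v hv => hg.2 v (hKH hv)⟩
    rw [hg.2 v hv, sub_self]
    exact K.zero_mem
  have hmul : ∀ W : Submodule F V, W.map ((u * g : V ≃ₗ[F] V) : V →ₗ[F] V) =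
      (W.map (g : V →ₗ[F] V)).map (u : V →ₗ[F] V) := fun W => by
    rw [← Submodule.map_comp]
    rfl
  refine ⟨u * g, mul_mem huU hgU, ?_, ?_⟩
  · rw [hmul, hgA]
    apply Submodule.eq_of_le_of_finrank_eq
    · rintro _ ⟨v, hv, rfl⟩
      show u v ∈ A'
      rw [huA v hv]
      exact hv
    · exact LinearEquiv.finrank_map_eq u A'
  · rw [hmul, ← hB₁]
    have hxA : x ∉ A' := fun h => hxAK (Submodule.mem_sup_left h)
    have hB1x : A' ⊔ (F ∙ x) = B₁ := sup_span hAB1 (by omega) hx hxA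
    apply Submodule.eq_of_le_of_finrank_eq
    · rintro _ ⟨v, hv, rfl⟩
      show u v ∈ B'
      rw [← hB1x] at hv
      obtain ⟨a, ha, z, hz, rfl⟩ := Submodule.mem_sup.1 hv
      obtain ⟨c', rfl⟩ := Submodule.mem_span_singleton.1 hz
      rw [map_add, map_smul, huA a ha, hux]
      exact B'.add_mem (b3 ha) (B'.smul_mem _ hx'B)
    · rw [LinearEquiv.finrank_map_eq]
      omega

/-- Subspaces of `K` and over `H` are preserved. -/
theorem uni_fix {K H W : Submodule F V} (h : W ≤ K ∨ H ≤ W) {g : V ≃ₗ[F] V} (hg : g ∈ Uni K H) :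
    W.map (g : V →ₗ[F] V) = W := by
  apply Submodule.eq_of_le_of_finrank_eq
  · rintro _ ⟨w, hw, rfl⟩
    show g w ∈ W
    rcases h with h | h
    · rw [hg.2.2 w (h hw)]
      exact hw
    · have h3 := W.add_mem (h (hg.1 w)) hw
      rwa [sub_add_cancel] at h3
  · exact LinearEquiv.finrank_map_eq g W

end Pool.Agent.U737.CF
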