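import Pool.Agent.U737.CF.Null

/-!
# The induction over the intervals `T ≤ R`
-/

set_option autoImplicit false

namespace Pool.Agent.U737.CF

open Finset
open Module (finrank)
open Pool.Agent.R570.PS

variable {F V : Type} [Field F] [AddCommGroup V] [Module F V] [FiniteDimensional F V]

omit [FiniteDimensional F V] in
theorem exists_mem {T R : Submodule F V} (h : T ≤ R) (hd : finrank F T < finrank F R) :
    ∃ y ∈ R, y ∉ T := by
  have h1 : T < R := by
    refine lt_of_le_of_ne h ?_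
    rintro rfl
    exact lt_irrefl _ hd
  obtain ⟨y, h2, h3⟩ := SetLike.exists_of_lt h1
  exact ⟨y, h2, h3⟩

/-- A hyperplane of `R` over `T` which does not contain `y`. -/
theorem exists_hyp {T R : Submodule F V} (h : T ≤ R) {y : V} (hy : y ∈ R) (hyT : y ∉ T) :
    ∃ R₁ : Submodule F V, T ≤ R₁ ∧ R₁ ≤ R ∧ y ∉ R₁ ∧ finrank F R₁ + 1 = finrank F R := by
  obtain ⟨ℓ, h2, h3⟩ := Submodule.exists_le_ker_of_notMem hyT
  refine ⟨R ⊓ LinearMap.ker ℓ, le_inf h h3, inf_le_left, fun h4 => h2 h4.2, ?_⟩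
  exact Pool.Agent.TH431.GQ.finrank_hyper hy h2

omit [FiniteDimensional F V] in
theorem sep {T R₁ : Submodule F V} (h : T ≤ R₁) {y : V} (hy : y ∉ R₁) {v : V}
    (hv : v ∈ T ⊔ (F ∙ y)) (hv1 : v ∈ R₁) : v ∈ T := by
  obtain ⟨t, ht, z, hz, rfl⟩ := Submodule.mem_sup.1 hv
  obtain ⟨a, rfl⟩ := Submodule.mem_span_singleton.1 hz
  by_cases ha : a = 0
  · rw [ha, zero_smul, add_zero]
    exact ht
  · exfalso
    apply hy
    have h1 : a • y ∈ R₁ := by
      have := R₁.sub_mem hv1 (h ht)
      rwa [add_sub_cancel_left] at this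
    have := R₁.smul_mem a⁻¹ h1
    rwa [smul_smul, inv_mul_cancel₀ ha, one_smul] at this

omit [FiniteDimensional F V] in
theorem exists_ne {C : Submodule F V} (h : C ≠ ⊥) : ∃ v ∈ C, v ≠ 0 :=
  Submodule.exists_mem_ne_zero_of_ne_bot h

/-- A vector of `A` in `R` outside of the hyperplane `R₁` of `R`. -/
theorem sup_top {A R R₁ : Submodule F V} (hA : A ⊔ R = ⊤) (h1 : R₁ ≤ R)
    (hd : finrank F R₁ + 1 = finrank F R) {v : V} (hv : v ∈ A) (hvR : v ∈ R) (hv1 : v ∉ R₁) :
    A ⊔ R₁ = ⊤ := by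
  rw [eq_top_iff, ← hA, ← sup_span h1 hd hvR hv1]
  refine sup_le le_sup_left (sup_le le_sup_right ?_)
  rw [Submodule.span_singleton_le_iff_mem]
  exact Submodule.mem_sup_left hv

variable [Finite F] {T₀ R₀ : Submodule F V} {X : Type} [Fintype X] [DecidableEq X]
  [MulAction (Stab T₀ R₀) X] {π : X → Submodule F V × Submodule F V} {f : (X → Bool) → Bool}
  {d i : ℕ}

/-- `𝒜` is invariant under the unipotent groups of the chains between `T` and `R`. -/
def InvaTR (i : ℕ) (T R : Submodule F V) (𝒜 : Submodule F V → Submodule F V → Prop) : Prop :=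
  ∀ K H : Submodule F V, IsCh i K H → T ≤ K → H ≤ R → Inva K H 𝒜

/-- The flags in general position to `T` and `R` may be added to every null set with these
symmetries. -/
def Claim (i : ℕ) (π : X → Submodule F V × Submodule F V) (f : (X → Bool) → Bool)
    (T R : Submodule F V) : Prop :=
  ∀ 𝒜 : Submodule F V → Submodule F V → Prop, InvaTR i T R 𝒜 → Null π f 𝒜 →
    Null π f (fun A B => 𝒜 A B ∨ GP T R A B)

omit [FiniteDimensional F V] [Finite F] in
theorem InvaTR.mono {T R T' R' : Submodule F V} {𝒜 : Submodule F V → Submodule F V → Prop}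
    (h : InvaTR i T R 𝒜) (hT : T ≤ T') (hR : R' ≤ R) : InvaTR i T' R' 𝒜 :=
  fun K H hch h1 h2 => h K H hch (hT.trans h1) (h2.trans hR)

/-- `T` and `R` at the distances `a` and `b` from the dimensions of the chains. -/
theorem claim (p : ℕ) [Fact p.Prime] [CharP F p] (D : Data i T₀ R₀ X π f d) :
    ∀ (s a b : ℕ) (T R : Submodule F V), a + b = s → T₀ ≤ T → T ≤ R → R ≤ R₀ →
      finrank F T + i + 1 + a = finrank F V → finrank F V + b = finrank F R + i →
      Claim i π f T R := by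
  intro s
  induction s with
  | zero =>
    intro a b T R hab hT hTR hR hTd hRd 𝒜 hA hN
    have ha : a = 0 := by omega
    have hb : b = 0 := by omega
    subst ha hb
    have hch : IsCh i T R := ⟨by omega, by omega, hTR⟩
    exact rule p D hch hT hR (hA T R hch le_rfl le_rfl) hN
  | succ s ih =>
    intro a b T R hab hT hTR hR hTd hRd 𝒜 hA hN
    have hAB : ∀ x, (π x).1 ≤ (π x).2 := fun x => (D.flag x).2.2
    have hAd : ∀ x, finrank F (π x).1 = i := fun x => (D.flag x).1
    have hBd : ∀ x, finrank F (π x).2 = i + 1 := fun x => (D.flag x).2.1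
    -- the dimensions of the intersections with `R`
    have hAR : ∀ x, (π x).1 ⊔ R = ⊤ →
        finrank F ((π x).1 ⊓ R : Submodule F V) + finrank F V = i + finrank F R := by
      intro x hx
      have h1 := Submodule.finrank_sup_add_finrank_inf_eq (π x).1 R
      rw [hx, finrank_top, hAd] at h1
      omega
    have hBR : ∀ x, (π x).1 ⊔ R = ⊤ →
        finrank F ((π x).2 ⊓ R : Submodule F V) + finrank F V = i + 1 + finrank F R := by
      intro x hx
      have h1 := Submodule.finrank_sup_add_finrank_inf_eq (π x).2 R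
      have h2 : (π x).2 ⊔ R = ⊤ := by
        rw [eq_top_iff, ← hx]
        exact sup_le_sup_right (hAB x) R
      rw [h2, finrank_top, hBd] at h1
      omega
    have hgpI : InvaTR i T R (GP T R) := fun K H _ h1 h2 => inva_gp (Or.inl h1) (Or.inr h2)
    have hTRd : finrank F T + 1 < finrank F R := by omega
    rcases Nat.eq_zero_or_pos a with ha | ha
    · -- `T` has the maximal dimension
      subst ha
      obtain ⟨y, hy, hyT⟩ := exists_mem hTR (by omega)
      have hT1d := finrank_sup_span hyT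
      have hT1R : T ⊔ (F ∙ y) ≤ R := sup_le hTR ((Submodule.span_singleton_le_iff_mem _ _).2 hy)
      obtain ⟨z, hz, hzT⟩ := exists_mem hT1R (by omega)
      obtain ⟨R₁, c1, c2, c3, c4⟩ := exists_hyp hT1R hz hzT
      obtain ⟨R₂, e1, e2, e3, e4⟩ := exists_hyp hTR hy hyT
      have hT1 : T ≤ R₁ := le_sup_left.trans c1
      have hyR1 : y ∈ R₁ := c1 (Submodule.mem_sup_right (Submodule.mem_span_singleton_self y))
      have n1 := ih 0 (b - 1) T R₁ (by omega) hT hT1 (c2.trans hR) (by omega) (by omega) 𝒜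
        (hA.mono le_rfl c2) hN
      have n2 : Null π f (fun A B => 𝒜 A B ∨ (GP T R A B ∧ A ⊓ R ≤ R₂)) := by
        refine n1.mono fun x hx => ?_
        rcases hx with hx | ⟨⟨hx1, hx2⟩, hx3⟩
        · exact Or.inl hx
        · refine Or.inr ⟨hx1, ?_⟩
          have hnle : ¬ (π x).1 ⊓ R ≤ R₁ := by
            intro h1
            have h2 := hAR x hx2
            have h3 : ((π x).1 ⊓ R) ⊓ T = ⊥ := by
              rw [eq_bot_iff, ← hx1]
              exact inf_le_inf_right _ (inf_le_left.trans (hAB x))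
            have h4 := Submodule.finrank_sup_add_finrank_inf_eq ((π x).1 ⊓ R) T
            rw [h3, finrank_bot] at h4
            have h5 : ((π x).1 ⊓ R) ⊔ T ≤ R₁ ⊓ R₂ := sup_le (le_inf h1 hx3) (le_inf hT1 e1)
            have h6 : R₁ ⊓ R₂ < R₁ := by
              refine lt_of_le_of_ne inf_le_left fun h7 => e3 ?_
              have h8 : y ∈ R₁ ⊓ R₂ := by
                rw [h7]
                exact hyR1
              exact h8.2
            have h7 := Submodule.finrank_lt_finrank_of_lt h6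
            have h8 := Submodule.finrank_mono h5
            omega
          obtain ⟨v, hv, hv1⟩ := Set.not_subset.1 hnle
          exact sup_top hx2 c2 c4 hv.1 hv.2 hv1
      have n3 := ih 0 (b - 1) T R₂ (by omega) hT e1 (e2.trans hR) (by omega) (by omega) _
        (fun K H hch h1 h2 => (hA K H hch h1 (h2.trans e2)).or
          ((hgpI K H hch h1 (h2.trans e2)).and (inva_leA (Or.inr (h2.trans e2)) (Or.inr h2)))) n2
      refine n3.mono fun x hx => ?_
      rcases hx with hx | hx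
      · exact Or.inl (Or.inl hx)
      · by_cases h1 : (π x).1 ⊓ R ≤ R₂
        · exact Or.inl (Or.inr ⟨hx, h1⟩)
        · obtain ⟨v, hv, hv1⟩ := Set.not_subset.1 h1
          exact Or.inr ⟨hx.1, sup_top hx.2 e2 e4 hv.1 hv.2 hv1⟩
    rcases Nat.eq_zero_or_pos b with hb | hb
    · -- `R` has the minimal dimension
      subst hb
      obtain ⟨y, hy, hyT⟩ := exists_mem hTR (by omega)
      have hT1d := finrank_sup_span hyT
      have hT1R : T ⊔ (F ∙ y) ≤ R := sup_le hTR ((Submodule.span_singleton_le_iff_mem _ _).2 hy)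
      obtain ⟨z, hz, hzT⟩ := exists_mem hT1R (by omega)
      have hzT' : z ∉ T := fun h => hzT (Submodule.mem_sup_left h)
      have hT2d := finrank_sup_span hzT'
      have hT2R : T ⊔ (F ∙ z) ≤ R := sup_le hTR ((Submodule.span_singleton_le_iff_mem _ _).2 hz)
      have n1 := ih (a - 1) 0 (T ⊔ (F ∙ y)) R (by omega) (hT.trans le_sup_left) hT1R hR
        (by omega) (by omega) 𝒜 (hA.mono le_sup_left le_rfl) hN
      have n2 : Null π f (fun A B => 𝒜 A B ∨ (GP T R A B ∧ ¬ B ⊓ (T ⊔ (F ∙ z)) = ⊥)) := by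
        refine n1.mono fun x hx => ?_
        rcases hx with hx | ⟨⟨hx1, hx2⟩, hx3⟩
        · exact Or.inl hx
        · refine Or.inr ⟨?_, hx2⟩
          by_contra hcon
          obtain ⟨v, hv, hv0⟩ := exists_ne hcon
          obtain ⟨w, hw, hw0⟩ := exists_ne hx3
          have h1 := hBR x hx2
          have h2 : finrank F ((π x).2 ⊓ R : Submodule F V) = 1 := by omega
          have h3 := Pool.Agent.U737.FL.point_eq h2 (x := v) ⟨hv.1, hT1R hv.2⟩ hv0
          have h4 : w ∈ (π x).2 ⊓ R := ⟨hw.1, hT2R hw.2⟩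
          rw [h3] at h4
          obtain ⟨c, rfl⟩ := Submodule.mem_span_singleton.1 h4
          have h5 : c • v ∈ T ⊔ (F ∙ y) := Submodule.smul_mem _ _ hv.2
          have h6 := sep (T := T) (R₁ := T ⊔ (F ∙ y)) le_sup_left hzT hw.2 h5
          have h7 : c • v ∈ (π x).2 ⊓ T := ⟨hw.1, h6⟩
          rw [hx1, Submodule.mem_bot] at h7
          exact hw0 h7
      have n3 := ih (a - 1) 0 (T ⊔ (F ∙ z)) R (by omega) (hT.trans le_sup_left) hT2R hR
        (by omega) (by omega) _
        (fun K H hch h1 h2 => (hA K H hch (le_sup_left.trans h1) h2).or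
          ((hgpI K H hch (le_sup_left.trans h1) h2).and (inva_infB (Or.inl h1)).not)) n2
      refine n3.mono fun x hx => ?_
      rcases hx with hx | hx
      · exact Or.inl (Or.inl hx)
      · by_cases h1 : (π x).2 ⊓ (T ⊔ (F ∙ z)) = ⊥
        · exact Or.inr ⟨h1, hx.2⟩
        · exact Or.inl (Or.inr ⟨hx, h1⟩)
    -- the general case
    have s1 : ∀ y ∈ R, y ∉ T →
        Null π f (fun A B => 𝒜 A B ∨ (GP T R A B ∧ ¬ A ⊓ (T ⊔ (F ∙ y)) = ⊥)) := by
      intro y hy hyT
      obtain ⟨R₁, c1, c2, c3, c4⟩ := exists_hyp hTR hy hyT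
      have n1 := ih a (b - 1) T R₁ (by omega) hT c1 (c2.trans hR) (by omega) (by omega) 𝒜
        (hA.mono le_rfl c2) hN
      refine n1.mono fun x hx => ?_
      rcases hx with hx | ⟨⟨hx1, hx2⟩, hx3⟩
      · exact Or.inl hx
      · refine Or.inr ⟨hx1, ?_⟩
        obtain ⟨v, hv, hv0⟩ := exists_ne hx3
        have hT1R : T ⊔ (F ∙ y) ≤ R :=
          sup_le hTR ((Submodule.span_singleton_le_iff_mem _ _).2 hy)
        refine sup_top hx2 c2 c4 hv.1 (hT1R hv.2) fun hv1 => hv0 ?_
        have h2 : v ∈ (π x).2 ⊓ T := ⟨hAB x hv.1, sep c1 c3 hv.2 hv1⟩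
        rwa [hx1, Submodule.mem_bot] at h2
    have s2 : ∀ y ∈ R, y ∉ T → Null π f (fun A B => 𝒜 A B ∨
        (GP T R A B ∧ (¬ A ⊓ (T ⊔ (F ∙ y)) = ⊥ ∨ B ⊓ (T ⊔ (F ∙ y)) = ⊥))) := by
      intro y hy hyT
      have hT1d := finrank_sup_span hyT
      have hT1R : T ⊔ (F ∙ y) ≤ R := sup_le hTR ((Submodule.span_singleton_le_iff_mem _ _).2 hy)
      have n2 := ih (a - 1) b (T ⊔ (F ∙ y)) R (by omega) (hT.trans le_sup_left) hT1R hR
        (by omega) (by omega) _
        (fun K H hch h1 h2 => (hA K H hch (le_sup_left.trans h1) h2).or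
          ((hgpI K H hch (le_sup_left.trans h1) h2).and (inva_infA (Or.inl h1)).not)) (s1 y hy hyT)
      refine n2.mono fun x hx => ?_
      rcases hx with hx | ⟨hx1, hx2 | hx2⟩
      · exact Or.inl (Or.inl hx)
      · exact Or.inl (Or.inr ⟨hx1, hx2⟩)
      · exact Or.inr ⟨hx2, hx1.2⟩
    have s3 : ∀ R₁ : Submodule F V, T ≤ R₁ → R₁ ≤ R → finrank F R₁ + 1 = finrank F R →
        Null π f (fun A B => 𝒜 A B ∨ (GP T R A B ∧ ¬ B ⊓ R ≤ R₁)) := by
      intro R₁ c1 c2 c4
      obtain ⟨y, hy1, hyT⟩ := exists_mem c1 (by omega)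
      have hT1R1 : T ⊔ (F ∙ y) ≤ R₁ :=
        sup_le c1 ((Submodule.span_singleton_le_iff_mem _ _).2 hy1)
      have n1 : Null π f (fun A B => 𝒜 A B ∨ (GP T R A B ∧ (A ⊓ R ≤ R₁ ∧ ¬ B ⊓ R ≤ R₁))) := by
        refine (s2 y (c2 hy1) hyT).mono fun x hx => ?_
        rcases hx with hx | ⟨hx1, hx2, hx3⟩
        · exact Or.inl hx
        · refine Or.inr ⟨hx1, ?_⟩
          by_cases h1 : (π x).2 ⊓ (T ⊔ (F ∙ y)) = ⊥
          · exact Or.inr h1
          · left
            intro h2
            obtain ⟨v, hv, hv0⟩ := exists_ne h1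
            have h3 : (π x).2 ⊓ R₁ < (π x).2 ⊓ R := by
              refine lt_of_le_of_ne (inf_le_inf_left _ c2) fun h4 => hx3 ?_
              rw [← h4]
              exact inf_le_right
            have h4 := Submodule.finrank_lt_finrank_of_lt h3
            have h5 := hAR x hx1.2
            have h6 := hBR x hx1.2
            have h7 : (π x).1 ⊓ R = (π x).2 ⊓ R₁ := by
              apply Submodule.eq_of_le_of_finrank_le
              · exact le_inf (inf_le_left.trans (hAB x)) hx2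
              · omega
            have h8 : v ∈ (π x).1 ⊓ R := by
              rw [h7]
              exact ⟨hv.1, hT1R1 hv.2⟩
            have h9 : v ∈ (π x).1 ⊓ (T ⊔ (F ∙ y)) := ⟨h8.1, hv.2⟩
            rw [h2, Submodule.mem_bot] at h9
            exact hv0 h9
      have n2 := ih a (b - 1) T R₁ (by omega) hT c1 (c2.trans hR) (by omega) (by omega) _
        (fun K H hch h1 h2 => (hA K H hch h1 (h2.trans c2)).or
          ((hgpI K H hch h1 (h2.trans c2)).and ((inva_leA (Or.inr (h2.trans c2)) (Or.inr h2)).and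
            (inva_leB (Or.inr (h2.trans c2)) (Or.inr h2)).not))) n1
      refine n2.mono fun x hx => ?_
      rcases hx with hx | ⟨hx1, hx2⟩
      · exact Or.inl (Or.inl hx)
      · by_cases h1 : (π x).1 ⊓ R ≤ R₁
        · exact Or.inl (Or.inr ⟨hx1, h1, hx2⟩)
        · obtain ⟨v, hv, hv1⟩ := Set.not_subset.1 h1
          exact Or.inr ⟨hx1.1, sup_top hx1.2 c2 c4 hv.1 hv.2 hv1⟩
    obtain ⟨y, hy, hyT⟩ := exists_mem hTR (by omega)
    obtain ⟨R₁, c1, c2, c3, c4⟩ := exists_hyp hTR hy hyT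
    have hT1d := finrank_sup_span hyT
    have hT1R : T ⊔ (F ∙ y) ≤ R := sup_le hTR ((Submodule.span_singleton_le_iff_mem _ _).2 hy)
    have n1 : Null π f (fun A B => 𝒜 A B ∨ (GP T R A B ∧ ¬ B ⊓ (T ⊔ (F ∙ y)) = ⊥)) := by
      refine (s3 R₁ c1 c2 c4).mono fun x hx => ?_
      rcases hx with hx | ⟨hx1, hx2⟩
      · exact Or.inl hx
      · refine Or.inr ⟨hx1, fun h1 => ?_⟩
        obtain ⟨v, hv, hv0⟩ := exists_ne hx2
        have h2 : v ∈ R₁ := h1 ⟨hv.1, hT1R hv.2⟩
        have h3 : v ∈ (π x).2 ⊓ T := ⟨hv.1, sep c1 c3 hv.2 h2⟩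
        rw [hx1.1, Submodule.mem_bot] at h3
        exact hv0 h3
    have n2 := ih (a - 1) b (T ⊔ (F ∙ y)) R (by omega) (hT.trans le_sup_left) hT1R hR
      (by omega) (by omega) _
      (fun K H hch h1 h2 => (hA K H hch (le_sup_left.trans h1) h2).or
        ((hgpI K H hch (le_sup_left.trans h1) h2).and (inva_infB (Or.inl h1)).not)) n1
    refine n2.mono fun x hx => ?_
    rcases hx with hx | hx
    · exact Or.inl (Or.inl hx)
    · by_cases h1 : (π x).2 ⊓ (T ⊔ (F ∙ y)) = ⊥
      · exact Or.inr ⟨h1, hx.2⟩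
      · exact Or.inl (Or.inr ⟨hx, h1⟩)

/-- A function with the data is constant. -/
theorem const (p : ℕ) [Fact p.Prime] [CharP F p] (D : Data i T₀ R₀ X π f d) (hTR : T₀ ≤ R₀)
    (h0 : f (ind ∅) = false) : f (ind univ) = false := by
  rcases isEmpty_or_nonempty X with hX | ⟨⟨x₀⟩⟩
  · rw [univ_eq_empty, h0]
  have h1 : finrank F T₀ + i + 1 ≤ finrank F V := by
    have h2 := Submodule.finrank_sup_add_finrank_inf_eq (π x₀).2 T₀
    rw [(D.gen x₀).1, finrank_bot, (D.flag x₀).2.1] at h2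
    have h3 := Submodule.finrank_le ((π x₀).2 ⊔ T₀)
    omega
  have h2 : finrank F V ≤ finrank F R₀ + i := by
    have h2 := Submodule.finrank_sup_add_finrank_inf_eq (π x₀).1 R₀
    rw [(D.gen x₀).2, finrank_top, (D.flag x₀).1] at h2
    omega
  obtain ⟨a, ha⟩ := Nat.exists_eq_add_of_le h1
  obtain ⟨b, hb⟩ := Nat.exists_eq_add_of_le h2
  have h3 := claim p D (a + b) a b T₀ R₀ rfl le_rfl hTR le_rfl ha.symm hb.symm
    (fun _ _ => False) (fun _ _ _ _ _ _ _ _ _ => Iff.rfl) (by
      intro S hS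
      have : S = ∅ := eq_empty_of_forall_notMem fun x hx => hS x hx
      rw [this, h0])
  exact h3 univ fun x _ => Or.inr (D.gen x)

end Pool.Agent.U737.CF
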