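import Pool.Agent.U737.CF.Lin
import Pool.Agent.TH431.GQ.Chain
import Pool.Agent.R570.PS.RV

/-!
# Null sets of flags of consecutive dimensions
-/

set_option autoImplicit false

namespace Pool.Agent.U737.CF

open Finset
open Module (finrank)
open scoped Pointwise
open Pool.Agent.R570.PS
open Pool.Agent.U737.FL (Uni uni_pgroup)

variable {F V : Type} [Field F] [AddCommGroup V] [Module F V]

/-- The group of the linear automorphisms `g` of `V` with `g T = T` and `g R = R`. -/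
def Stab (T R : Submodule F V) : Subgroup (V ≃ₗ[F] V) :=
  Pool.Agent.TH431.GQ.Stb T ⊓ Pool.Agent.TH431.GQ.Stb R

theorem mem_stab {T R : Submodule F V} {g : V ≃ₗ[F] V} :
    g ∈ Stab T R ↔ T.map (g : V →ₗ[F] V) = T ∧ R.map (g : V →ₗ[F] V) = R := Iff.rfl

/-- `𝒜` does not change under the unipotent group of `K ≤ H`. -/
def Inva (K H : Submodule F V) (𝒜 : Submodule F V → Submodule F V → Prop) : Prop :=
  ∀ g ∈ Uni K H, ∀ A B, 𝒜 (A.map (g : V →ₗ[F] V)) (B.map (g : V →ₗ[F] V)) ↔ 𝒜 A B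

section Inva

variable {K H : Submodule F V} {𝒜 ℬ : Submodule F V → Submodule F V → Prop}

theorem Inva.and (hA : Inva K H 𝒜) (hB : Inva K H ℬ) : Inva K H fun A B => 𝒜 A B ∧ ℬ A B :=
  fun g hg A B => and_congr (hA g hg A B) (hB g hg A B)

theorem Inva.or (hA : Inva K H 𝒜) (hB : Inva K H ℬ) : Inva K H fun A B => 𝒜 A B ∨ ℬ A B :=
  fun g hg A B => or_congr (hA g hg A B) (hB g hg A B)

theorem Inva.not (hA : Inva K H 𝒜) : Inva K H fun A B => ¬ 𝒜 A B :=
  fun g hg A B => not_congr (hA g hg A B)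

theorem map_inf_eq_bot {W C : Submodule F V} {g : V ≃ₗ[F] V}
    (hW : W.map (g : V →ₗ[F] V) = W) : C.map (g : V →ₗ[F] V) ⊓ W = ⊥ ↔ C ⊓ W = ⊥ := by
  have h1 : (C ⊓ W).map (g : V →ₗ[F] V) = C.map (g : V →ₗ[F] V) ⊓ W := by
    rw [Submodule.map_inf _ g.injective, hW]
  rw [← h1]
  constructor
  · intro h
    have h2 : (C ⊓ W).map (g : V →ₗ[F] V) = (⊥ : Submodule F V).map (g : V →ₗ[F] V) := by
      rw [h, Submodule.map_bot]
    exact Submodule.map_injective_of_injective g.injective h2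
  · intro h
    rw [h, Submodule.map_bot]

theorem map_sup_eq_top {W C : Submodule F V} {g : V ≃ₗ[F] V}
    (hW : W.map (g : V →ₗ[F] V) = W) : C.map (g : V →ₗ[F] V) ⊔ W = ⊤ ↔ C ⊔ W = ⊤ := by
  have h1 : (C ⊔ W).map (g : V →ₗ[F] V) = C.map (g : V →ₗ[F] V) ⊔ W := by
    rw [Submodule.map_sup, hW]
  have h3 : (⊤ : Submodule F V).map (g : V →ₗ[F] V) = ⊤ := by
    rw [Submodule.map_top, LinearMap.range_eq_top]
    exact g.surjective
  rw [← h1]
  constructor
  · intro h
    have h2 : (C ⊔ W).map (g : V →ₗ[F] V) = (⊤ : Submodule F V).map (g : V →ₗ[F] V) := by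
      rw [h, h3]
    exact Submodule.map_injective_of_injective g.injective h2
  · intro h
    rw [h, h3]

theorem map_inf_le {W W' C : Submodule F V} {g : V ≃ₗ[F] V}
    (hW : W.map (g : V →ₗ[F] V) = W) (hW' : W'.map (g : V →ₗ[F] V) = W') :
    C.map (g : V →ₗ[F] V) ⊓ W ≤ W' ↔ C ⊓ W ≤ W' := by
  have h1 : (C ⊓ W).map (g : V →ₗ[F] V) = C.map (g : V →ₗ[F] V) ⊓ W := by
    rw [Submodule.map_inf _ g.injective, hW]
  rw [← h1]
  conv_lhs => rw [← hW']
  exact Submodule.map_le_map_iff_of_injective g.injective _ _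

variable [FiniteDimensional F V]

/-- `W` is contained in `K` or contains `H`. -/
abbrev Cpt (K H W : Submodule F V) : Prop := W ≤ K ∨ H ≤ W

theorem inva_infA {W : Submodule F V} (h : Cpt K H W) : Inva K H fun A _ => A ⊓ W = ⊥ :=
  fun _ hg _ _ => map_inf_eq_bot (uni_fix h hg)

theorem inva_infB {W : Submodule F V} (h : Cpt K H W) : Inva K H fun _ B => B ⊓ W = ⊥ :=
  fun _ hg _ _ => map_inf_eq_bot (uni_fix h hg)

theorem inva_supA {W : Submodule F V} (h : Cpt K H W) : Inva K H fun A _ => A ⊔ W = ⊤ :=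
  fun _ hg _ _ => map_sup_eq_top (uni_fix h hg)

theorem inva_leA {W W' : Submodule F V} (h : Cpt K H W) (h' : Cpt K H W') :
    Inva K H fun A _ => A ⊓ W ≤ W' :=
  fun _ hg _ _ => map_inf_le (uni_fix h hg) (uni_fix h' hg)

theorem inva_leB {W W' : Submodule F V} (h : Cpt K H W) (h' : Cpt K H W') :
    Inva K H fun _ B => B ⊓ W ≤ W' :=
  fun _ hg _ _ => map_inf_le (uni_fix h hg) (uni_fix h' hg)

theorem inva_gp {T R : Submodule F V} (h : Cpt K H T) (h' : Cpt K H R) :
    Inva K H (GP T R) := (inva_infB h).and (inva_supA h')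

end Inva

variable {T₀ R₀ : Submodule F V} {X : Type} [Fintype X] [DecidableEq X] [MulAction (Stab T₀ R₀) X]

/-- `f` is zero on all sets of variables over `𝒜`. -/
def Null (π : X → Submodule F V × Submodule F V) (f : (X → Bool) → Bool)
    (𝒜 : Submodule F V → Submodule F V → Prop) : Prop :=
  ∀ S : Finset X, (∀ x ∈ S, 𝒜 (π x).1 (π x).2) → f (ind S) = false

/-- The chains `K ≤ H` of the type opposite to the flags. -/
def IsCh (i : ℕ) (K H : Submodule F V) : Prop :=
  finrank F K + i + 1 = finrank F V ∧ finrank F H + i = finrank F V ∧ K ≤ H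

/-- The data of the theorem. -/
structure Data (i : ℕ) (T₀ R₀ : Submodule F V) (X : Type) [Fintype X]
    [DecidableEq X] [MulAction (Stab T₀ R₀) X] (π : X → Submodule F V × Submodule F V)
    (f : (X → Bool) → Bool) (d : ℕ) : Prop where
  mono : Monotone f
  depth : DepthLe d f
  inv : ∀ (g : Stab T₀ R₀) (S : Finset X), f (ind (g • S)) = f (ind S)
  flag : ∀ x, IsFl i (π x)
  gen : ∀ x, GP T₀ R₀ (π x).1 (π x).2
  equi : ∀ (g : Stab T₀ R₀) x,
    π (g • x) = ((π x).1.map (g.1 : V →ₗ[F] V), (π x).2.map (g.1 : V →ₗ[F] V))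
  big : ∀ K H : Submodule F V, IsCh i K H →
    d < Nat.card {c : Submodule F V × Submodule F V // IsFl i c ∧ GP K H c.1 c.2}

variable {π : X → Submodule F V × Submodule F V} {f : (X → Bool) → Bool} {d : ℕ}

omit [Fintype X] [MulAction (Stab T₀ R₀) X] in
theorem Null.mono {𝒜 ℬ : Submodule F V → Submodule F V → Prop} (hB : Null π f ℬ)
    (h : ∀ x, 𝒜 (π x).1 (π x).2 → ℬ (π x).1 (π x).2) : Null π f 𝒜 :=
  fun S hS => hB S fun x hx => h x (hS x hx)

/-- The main rule: the flags opposite to a given chain may be added. -/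
theorem rule [Finite F] [FiniteDimensional F V] {i : ℕ} (p : ℕ) [Fact p.Prime] [CharP F p]
    (D : Data i T₀ R₀ X π f d) {K H : Submodule F V} (hch : IsCh i K H) (hT : T₀ ≤ K) (hR : H ≤ R₀)
    {𝒜 : Submodule F V → Submodule F V → Prop} (hA : Inva K H 𝒜) (hN : Null π f 𝒜) :
    Null π f (fun A B => 𝒜 A B ∨ GP K H A B) := by
  classical
  have hVf : Finite V := Module.finite_of_finite F
  have hSub : Finite (Submodule F V) :=
    Finite.of_injective (fun W : Submodule F V => (W : Set V)) SetLike.coe_injective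
  have hGf : Finite (V ≃ₗ[F] V) :=
    Finite.of_injective (fun g : V ≃ₗ[F] V => (g : V → V)) DFunLike.coe_injective
  intro S hS
  obtain ⟨P, hP⟩ : ∃ P : Subgroup (Stab T₀ R₀), P = (Uni K H).subgroupOf (Stab T₀ R₀) := ⟨_, rfl⟩
  have hPmem : ∀ g : P, (g.1.1 : V ≃ₗ[F] V) ∈ Uni K H := by
    rintro ⟨g, hg⟩
    rw [hP] at hg
    exact Subgroup.mem_subgroupOf.1 hg
  have hPp : IsPGroup p P := by
    rw [hP]
    exact (uni_pgroup p K H).comap_subtype
  obtain ⟨Y, hY⟩ : ∃ Y : Finset X, Y = univ.filter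
    (fun x => 𝒜 (π x).1 (π x).2 ∧ ¬ GP K H (π x).1 (π x).2) := ⟨_, rfl⟩
  obtain ⟨O, hO⟩ : ∃ O : Finset X, O = univ.filter
    (fun x => GP K H (π x).1 (π x).2) := ⟨_, rfl⟩
  have hmemY : ∀ x, x ∈ Y ↔ 𝒜 (π x).1 (π x).2 ∧ ¬ GP K H (π x).1 (π x).2 := fun x => by
    rw [hY, mem_filter]
    exact ⟨fun h => h.2, fun h => ⟨mem_univ _, h⟩⟩
  have hmemO : ∀ x, x ∈ O ↔ GP K H (π x).1 (π x).2 := fun x => by
    rw [hO, mem_filter]
    exact ⟨fun h => h.2, fun h => ⟨mem_univ _, h⟩⟩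
  have hYf : f (ind Y) = false := hN Y fun x hx => ((hmemY x).1 hx).1
  have hinv : ∀ (g : P) (S : Finset X), f (ind (g • S)) = f (ind S) :=
    fun g S => D.inv g.1 S
  have hopp : Inva K H (GP K H) := inva_gp (Or.inl le_rfl) (Or.inr le_rfl)
  have h2 := rv' p hPp D.depth hinv O.card Y O le_rfl (by
      rw [disjoint_left]
      intro x hx hx'
      exact ((hmemY x).1 hx).2 ((hmemO x).1 hx')) (by
      intro g x hx
      rw [hmemY] at hx ⊢
      have h3 : π (g • x) = _ := D.equi g.1 x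
      rw [h3]
      exact ⟨(hA g.1.1 (hPmem g) _ _).2 hx.1,
        fun h4 => hx.2 ((hopp g.1.1 (hPmem g) _ _).1 h4)⟩) (by
      intro g x hx
      rw [hmemO] at hx ⊢
      have h3 : π (g • x) = _ := D.equi g.1 x
      rw [h3]
      exact (hopp g.1.1 (hPmem g) _ _).2 hx) (by
      intro S hSO hne hSi
      obtain ⟨x, hx⟩ := hne
      have hxo : GP K H (π x).1 (π x).2 := (hmemO x).1 (hSO hx)
      refine lt_of_lt_of_le (D.big K H hch) ?_
      have h3 : {c : Submodule F V × Submodule F V | IsFl i c ∧ GP K H c.1 c.2} ⊆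
          ((S.image π : Finset (Submodule F V × Submodule F V)) :
            Set (Submodule F V × Submodule F V)) := by
        rintro ⟨A', B'⟩ ⟨hc, hco⟩
        obtain ⟨g, hg, hg1, hg2⟩ := opp_trans hch.1 hch.2.1 hch.2.2 (D.flag x) hc hxo hco
        have hgS : g ∈ Stab T₀ R₀ := ⟨uni_fix (Or.inl hT) hg, uni_fix (Or.inr hR) hg⟩
        rw [mem_coe, mem_image]
        refine ⟨(⟨g, hgS⟩ : Stab T₀ R₀) • x, hSi ⟨⟨g, hgS⟩, ?_⟩ x hx, ?_⟩
        · rw [hP, Subgroup.mem_subgroupOf]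
          exact hg
        · rw [D.equi]
          show (_, _) = _
          rw [hg1, hg2]
      have h4 := Set.ncard_le_ncard h3 (Finset.finite_toSet _)
      rw [Set.ncard_coe_finset] at h4
      exact h4.trans card_image_le)
  have h5 : f (ind S) ≤ f (ind (Y ∪ O)) := by
    apply D.mono
    apply ind_mono
    intro x hx
    rw [mem_union, hmemY, hmemO]
    rcases hS x hx with h6 | h6
    · by_cases h7 : GP K H (π x).1 (π x).2
      · exact Or.inr h7
      · exact Or.inl ⟨h6, h7⟩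
    · exact Or.inr h6
  rw [h2, hYf] at h5
  exact le_bot_iff.1 h5

end Pool.Agent.U737.CF
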